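import Pool.Agent.N90.TD.Main

/-!
# The Tate conjecture for products of ordinary abelian varieties over finite fields: one explicit
# power suffices
-/

set_option autoImplicit false

namespace Pool.Agent.Results.MP_ee618e_ag.OneExplicitPower

open NumberField Module Pool.Agent.N90.TD

/-- **One explicit power.** Let `A i` be pairwise non-isogenous absolutely simple ordinary abelian
varieties over the field with `p ^ a` elements, given by `(E i, π i)`, and let `g` be the dimension
of their product. Let `N` be a natural number with `(g - 1) ^ (g - 1) < 4 ^ (g - 2) (N + 1) ^ 2`.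
If some product of the `A i`, in which each `A i` occurs at least `N` times, has no exotic Tate
classes with coefficients in some field `K` of characteristic zero, then no product of powers of
the `A i` has exotic Tate classes, with coefficients in any field `K'` of characteristic zero. -/
theorem result {p a : ℕ} [Fact p.Prime] {ι : Type} [Fintype ι] [Nonempty ι] {E : ι → Type}
    [∀ i, Field (E i)] [∀ i, NumberField (E i)] [∀ i, IsCMField (E i)] {π : ∀ i, E i}
    (hπ : IsOrdinaryFamily p a E π) {g N : ℕ} (hg : ∑ i, finrank ℚ (E i) = 2 * g)
    (hN : (g - 1) ^ (g - 1) < 4 ^ (g - 2) * (N + 1) ^ 2)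
    (K : Type) [Field K] [CharZero K] {J : Type} [Fintype J] (t : J → ι)
    (ht : ∀ i, ∃ e : Fin N → J, Function.Injective e ∧ ∀ k, t (e k) = i)
    (h : TateGenerated (frob K π t) (p ^ a)) (K' : Type) [Field K'] [CharZero K']
    {J' : Type} [Fintype J'] (t' : J' → ι) : TateGenerated (frob K' π t') (p ^ a) :=
  upper hπ hg hN K t ht h K' t'

end Pool.Agent.Results.MP_ee618e_ag.OneExplicitPower
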